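import Pool.Agent.W751.RD.Stm

set_option autoImplicit false

/-!
Project RD: the family `a * R` (helper721).
-/

open Polynomial Filter Topology MeasureTheory

namespace Pool.Agent.W721.RD

open Pool.Agent.W751.CD Pool.Agent.W751.RD

variable {N : ℕ}

theorem eval_P (z : Fin N → ℂ) (w : ℂ) : (P z).eval w = ∏ i, (w - z i) := by
  simp [P, eval_prod]

theorem P_monic (z : Fin N → ℂ) : (P z).Monic :=
  monic_prod_of_monic _ _ fun i _ => monic_X_sub_C _

theorem P_natDegree (z : Fin N → ℂ) : (P z).natDegree = N := by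
  unfold P
  rw [natDegree_prod_of_monic _ _ fun i _ => monic_X_sub_C _]
  simp

theorem P_coprime (z p : Fin N → ℂ) (h : ∀ i j, z i ≠ p j) : IsCoprime (P z) (P p) := by
  unfold P
  refine IsCoprime.prod_left fun i _ => IsCoprime.prod_right fun j _ => ?_
  exact isCoprime_X_sub_C_of_isUnit_sub (sub_ne_zero.mpr (h i j)).isUnit

theorem prodcmp (hN : 1 ≤ N) (u : Fin N → ℂ) (hu : ∀ i, ‖u i‖ ≤ 1 / (4 * N)) :
    3 / 4 ≤ ‖∏ i, (1 - u i)‖ ∧ ‖∏ i, (1 - u i)‖ ≤ 4 / 3 := by
  have hN0 : (0 : ℝ) < N := by exact_mod_cast hN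
  have hN1 : (1 : ℝ) ≤ N := by exact_mod_cast hN
  have h5 : 1 / (4 * (N : ℝ)) ≤ 1 / 4 := by
    rw [div_le_div_iff₀ (by positivity) (by norm_num)]; linarith
  rw [norm_prod]
  constructor
  · have h3 := one_add_mul_le_pow (a := -(1 / (4 * (N : ℝ)))) (by linarith) N
    have h4 : (1 : ℝ) + N * -(1 / (4 * (N : ℝ))) = 3 / 4 := by field_simp; norm_num
    rw [h4] at h3
    refine h3.trans ?_
    calc (1 + -(1 / (4 * (N : ℝ)))) ^ N = ∏ _i : Fin N, (1 + -(1 / (4 * (N : ℝ)))) := by simp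
      _ ≤ ∏ i, ‖1 - u i‖ := by
          refine Finset.prod_le_prod (fun i _ => by linarith) fun i _ => ?_
          have h2 := norm_sub_norm_le (1 : ℂ) (u i)
          rw [norm_one] at h2
          have := hu i
          linarith
  · calc ∏ i, ‖1 - u i‖ ≤ ∏ _i : Fin N, Real.exp (1 / (4 * (N : ℝ))) := by
          refine Finset.prod_le_prod (fun i _ => norm_nonneg _) fun i _ => ?_
          have h2 := norm_sub_le (1 : ℂ) (u i)
          rw [norm_one] at h2
          have h3 := hu i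
          have h4 := Real.add_one_le_exp (1 / (4 * (N : ℝ)))
          linarith
      _ = Real.exp (1 / 4) := by
          rw [Finset.prod_const, Finset.card_univ, Fintype.card_fin, ← Real.exp_nat_mul]
          congr 1
          field_simp
      _ ≤ 4 / 3 := by
          have h3 : Real.exp (1 / 4) ^ 4 = Real.exp 1 := by
            rw [← Real.exp_nat_mul]; congr 1; norm_num
          have h4 := Real.exp_one_lt_d9
          by_contra hcon
          push Not at hcon
          have h6 : (4 / 3 : ℝ) ^ 4 < Real.exp (1 / 4) ^ 4 :=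
            pow_lt_pow_left₀ hcon (by norm_num) (by norm_num)
          rw [h3] at h6
          norm_num at h6
          linarith

/-- ratio of two comparable products -/
theorem ratio {A B : ℝ} (hA : 3 / 4 ≤ A ∧ A ≤ 4 / 3) (hB : 3 / 4 ≤ B ∧ B ≤ 4 / 3) :
    1 / 2 ≤ A / B ∧ A / B ≤ 2 := by
  have hB0 : 0 < B := by linarith
  constructor
  · rw [le_div_iff₀ hB0]; linarith
  · rw [div_le_iff₀ hB0]; linarith

theorem eval_P_factor (z : Fin N → ℂ) (hz : ∀ i, z i ≠ 0) (w : ℂ) :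
    (P z).eval w = (P z).eval 0 * ∏ i, (1 - w / z i) := by
  rw [eval_P, eval_P, ← Finset.prod_mul_distrib]
  refine Finset.prod_congr rfl fun i _ => ?_
  have := hz i
  field_simp
  ring

theorem numeric {N : ℕ} (hN : 2 ≤ N) {L : ℝ} (hL : 1 ≤ L) :
    2 * (2 * Real.pi * Real.log (1024 * N ^ 2 * L)) +
      4 * Real.sqrt 3 * Real.pi * Real.log (256 * N ^ 2 * L) * Real.sqrt (2 * N) ≤
    420 * Real.sqrt N * Real.log (N * L) := by
  have hN2 : (2 : ℝ) ≤ N := by exact_mod_cast hN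
  have hN0 : (0 : ℝ) < N := by linarith
  have hL0 : 0 < L := by linarith
  set l := Real.log (N * L) with hl
  have hl2 : Real.log 2 ≤ l := by
    apply Real.log_le_log (by norm_num)
    nlinarith
  have hlog2 : 0.6931 < Real.log 2 := by have := Real.log_two_gt_d9; linarith
  have hl0 : 0 < l := by linarith
  have e1 : Real.log (256 * N ^ 2 * L) ≤ 10 * l := by
    have h1 : Real.log (256 * N ^ 2 * L) ≤ Real.log (2 ^ 8 * (N * L) ^ 2) := by
      apply Real.log_le_log (by positivity)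
      have : (N : ℝ) ^ 2 * L ≤ N ^ 2 * L ^ 2 := by
        apply mul_le_mul_of_nonneg_left _ (by positivity)
        nlinarith
      nlinarith
    rw [Real.log_mul (show (2 : ℝ) ^ 8 ≠ 0 by norm_num)
      (show ((N : ℝ) * L) ^ 2 ≠ 0 by positivity), Real.log_pow, Real.log_pow] at h1
    push_cast at h1
    linarith
  have e2 : Real.log (1024 * N ^ 2 * L) ≤ 12 * l := by
    have h1 : Real.log (1024 * N ^ 2 * L) ≤ Real.log (2 ^ 10 * (N * L) ^ 2) := by
      apply Real.log_le_log (by positivity)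
      have : (N : ℝ) ^ 2 * L ≤ N ^ 2 * L ^ 2 := by
        apply mul_le_mul_of_nonneg_left _ (by positivity)
        nlinarith
      nlinarith
    rw [Real.log_mul (show (2 : ℝ) ^ 10 ≠ 0 by norm_num)
      (show ((N : ℝ) * L) ^ 2 ≠ 0 by positivity), Real.log_pow, Real.log_pow] at h1
    push_cast at h1
    linarith
  have hpi := Real.pi_lt_d4
  have hpi0 := Real.pi_pos
  have h3 : Real.sqrt 3 * Real.sqrt 2 ≤ 2.4495 := by
    rw [← Real.sqrt_mul (by norm_num), Real.sqrt_le_left (by norm_num)]; norm_num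
  have hs : 1.414 ≤ Real.sqrt N := by
    apply Real.le_sqrt_of_sq_le
    linarith
  have k1 : 2 * (2 * Real.pi * Real.log (1024 * N ^ 2 * L)) ≤ 107 * Real.sqrt N * l := by
    calc 2 * (2 * Real.pi * Real.log (1024 * N ^ 2 * L))
        ≤ 2 * (2 * Real.pi * (12 * l)) := by gcongr
      _ = (48 * Real.pi) * l := by ring
      _ ≤ (107 * Real.sqrt N) * l := by
          apply mul_le_mul_of_nonneg_right _ hl0.le
          nlinarith
  have k2 : 4 * Real.sqrt 3 * Real.pi * Real.log (256 * N ^ 2 * L) * Real.sqrt (2 * N) ≤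
      308 * Real.sqrt N * l := by
    have q1 : Real.sqrt 3 * Real.sqrt 2 * Real.pi ≤ 7.696 := by
      calc Real.sqrt 3 * Real.sqrt 2 * Real.pi ≤ 2.4495 * 3.1416 := by gcongr
        _ ≤ _ := by norm_num
    rw [Real.sqrt_mul (by norm_num)]
    calc 4 * Real.sqrt 3 * Real.pi * Real.log (256 * N ^ 2 * L) * (Real.sqrt 2 * Real.sqrt N)
        ≤ 4 * Real.sqrt 3 * Real.pi * (10 * l) * (Real.sqrt 2 * Real.sqrt N) := by gcongr
      _ = 40 * (Real.sqrt 3 * Real.sqrt 2 * Real.pi) * l * Real.sqrt N := by ring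
      _ ≤ 40 * 7.696 * l * Real.sqrt N := by gcongr
      _ ≤ _ := by
          have : 0 ≤ l * Real.sqrt N := by positivity
          nlinarith
  nlinarith [mul_pos hl0 (by linarith : 0 < Real.sqrt N)]

theorem RFIB_holds : S_RFIB := by
  intro hNU hC2 hDYN N hN z p L hz hp hzp hL
  have hN2 : (2 : ℝ) ≤ N := by exact_mod_cast hN
  have hN0 : (0 : ℝ) < N := by linarith
  have hN1 : 1 ≤ N := by omega
  let i0 : Fin N := ⟨0, by omega⟩
  have hL1 : 1 ≤ L := by
    have h1 := (hL i0 i0).1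
    have h2 : 0 < ‖z i0‖ := norm_pos_iff.2 (hz i0)
    by_contra hcon
    push Not at hcon
    nlinarith
  have hL0 : 0 < L := by linarith
  -- the largest modulus
  obtain ⟨D, hD0, hDz, hDp, hdz, hdp⟩ : ∃ D : ℝ, 0 < D ∧ (∀ i, ‖z i‖ ≤ D) ∧ (∀ i, ‖p i‖ ≤ D) ∧
      (∀ i, D / L ≤ ‖z i‖) ∧ (∀ i, D / L ≤ ‖p i‖) := by
    have hne : Nonempty (Fin N) := ⟨i0⟩
    obtain ⟨jz, hjz⟩ := Finite.exists_max (fun i => ‖z i‖)
    obtain ⟨jp, hjp⟩ := Finite.exists_max (fun i => ‖p i‖)
    refine ⟨max ‖z jz‖ ‖p jp‖, lt_max_of_lt_left (norm_pos_iff.2 (hz jz)),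
      fun i => (hjz i).trans (le_max_left _ _), fun i => (hjp i).trans (le_max_right _ _), ?_, ?_⟩
    · intro i
      rw [div_le_iff₀ hL0, max_le_iff]
      constructor
      · have := (hL jz i).1; linarith
      · have := (hL jp i).2.2.1; linarith
    · intro i
      rw [div_le_iff₀ hL0, max_le_iff]
      constructor
      · have := (hL jz i).2.1; linarith
      · have := (hL jp i).2.2.2; linarith
  set s : ℝ := D / L / (4 * N) with hs
  set t : ℝ := 1 / (4 * N * D) with ht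
  have hs0 : 0 < s := by positivity
  have ht0 : 0 < t := by positivity
  have hst : s < 1 / t := by
    rw [hs, ht, one_div_one_div, div_div, div_lt_iff₀ (by positivity)]
    have h1 : 1 ≤ L * (4 * N) := by nlinarith
    have h2 : D * 1 < 4 * N * D * (L * (4 * N)) := by
      have : D * 1 ≤ D * (L * (4 * N)) := mul_le_mul_of_nonneg_left h1 hD0.le
      have h3 : 0 < D * (L * (4 * N)) := by positivity
      nlinarith
    linarith
  have hnz : ∀ w : ℂ, ‖w‖ ≤ s → ∀ i, ‖w / z i‖ ≤ 1 / (4 * N) := by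
    intro w hw i
    have h1 : 0 < ‖z i‖ := norm_pos_iff.2 (hz i)
    rw [norm_div, div_le_iff₀ h1]
    calc ‖w‖ ≤ D / L / (4 * N) := hw
      _ = 1 / (4 * N) * (D / L) := by ring
      _ ≤ 1 / (4 * N) * ‖z i‖ := mul_le_mul_of_nonneg_left (hdz i) (by positivity)
  have hnp : ∀ w : ℂ, ‖w‖ ≤ s → ∀ i, ‖w / p i‖ ≤ 1 / (4 * N) := by
    intro w hw i
    have h1 : 0 < ‖p i‖ := norm_pos_iff.2 (hp i)
    rw [norm_div, div_le_iff₀ h1]
    calc ‖w‖ ≤ D / L / (4 * N) := hw
      _ = 1 / (4 * N) * (D / L) := by ring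
      _ ≤ 1 / (4 * N) * ‖p i‖ := mul_le_mul_of_nonneg_left (hdp i) (by positivity)
  have hxz : ∀ x : ℂ, ‖x‖ ≤ t → ∀ i, ‖z i * x‖ ≤ 1 / (4 * N) := by
    intro x hx i
    rw [norm_mul]
    calc ‖z i‖ * ‖x‖ ≤ D * t := mul_le_mul (hDz i) hx (norm_nonneg _) hD0.le
      _ = 1 / (4 * N) := by rw [ht]; field_simp
  have hxp : ∀ x : ℂ, ‖x‖ ≤ t → ∀ i, ‖p i * x‖ ≤ 1 / (4 * N) := by
    intro x hx i
    rw [norm_mul]
    calc ‖p i‖ * ‖x‖ ≤ D * t := mul_le_mul (hDp i) hx (norm_nonneg _) hD0.le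
      _ = 1 / (4 * N) := by rw [ht]; field_simp
  have hz0 : (P z).eval 0 ≠ 0 := by
    rw [eval_P, Finset.prod_ne_zero_iff]
    intro i _
    rw [zero_sub]
    exact neg_ne_zero.mpr (hz i)
  have hp0 : (P p).eval 0 ≠ 0 := by
    rw [eval_P, Finset.prod_ne_zero_iff]
    intro i _
    rw [zero_sub]
    exact neg_ne_zero.mpr (hp i)
  set r0 : ℝ := ‖R z p 0‖ with hr0
  have hr0pos : 0 < r0 := by
    rw [hr0, R, norm_div]
    exact div_pos (norm_pos_iff.2 hz0) (norm_pos_iff.2 hp0)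
  have hRw : ∀ w : ℂ, ‖w‖ ≤ s → (P p).eval w ≠ 0 ∧ r0 * (1 / 2) ≤ ‖R z p w‖ ∧
      ‖R z p w‖ ≤ r0 * 2 := by
    intro w hw
    have c1 := prodcmp hN1 _ (hnz w hw)
    have c2 := prodcmp hN1 _ (hnp w hw)
    have c3 := ratio c1 c2
    have h1 : ∏ i, (1 - w / p i) ≠ 0 := by
      intro h0
      rw [h0, norm_zero] at c2
      linarith
    have h2 : ‖R z p w‖ = r0 * (‖∏ i, (1 - w / z i)‖ / ‖∏ i, (1 - w / p i)‖) := by
      rw [hr0, R, R, eval_P_factor z hz w, eval_P_factor p hp w, norm_div, norm_div, norm_mul,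
        norm_mul]
      ring
    refine ⟨?_, ?_, ?_⟩
    · rw [eval_P_factor p hp w]
      exact mul_ne_zero hp0 h1
    · rw [h2]; exact mul_le_mul_of_nonneg_left c3.1 hr0pos.le
    · rw [h2]; exact mul_le_mul_of_nonneg_left c3.2 hr0pos.le
  have hRx : ∀ x : ℂ, ‖x‖ ≤ t → Pr p x ≠ 0 ∧ 1 / 2 ≤ ‖Pr z x / Pr p x‖ ∧
      ‖Pr z x / Pr p x‖ ≤ 2 := by
    intro x hx
    have c1 := prodcmp hN1 _ (hxz x hx)
    have c2 := prodcmp hN1 _ (hxp x hx)
    have c3 := ratio c1 c2
    refine ⟨?_, ?_, ?_⟩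
    · intro h0
      rw [Pr] at h0
      rw [h0, norm_zero] at c2
      linarith
    · rw [norm_div]; exact c3.1
    · rw [norm_div]; exact c3.2
  -- the exceptional sets
  have hdeg : max (P z).natDegree (P p).natDegree = N := by
    rw [P_natDegree, P_natDegree, max_self]
  have hcop := P_coprime z p hzp
  have hw0 : Pool.Agent.H762R2.Rt.wro (P z) (P p) ≠ 0 :=
    Pool.Agent.H762R2.Rt.wro_ne_zero hcop (by rw [hdeg]; exact hN1)
  have hwd := Pool.Agent.H762R2.Rt.wro_natDegree hcop (by rw [hdeg]; exact hN1)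
  rw [hdeg] at hwd
  set W := Pool.Agent.H762R2.Rt.wro (P z) (P p) with hW
  set J : Finset ℂ := (W.roots.toFinset.image (fun c => R z p c)).filter (fun b => b ≠ 0) with hJ
  have hJ0 : ∀ b ∈ J, b ≠ 0 := fun b hb => (Finset.mem_filter.1 hb).2
  have hJc : J.card ≤ 2 * N := by
    calc J.card ≤ (W.roots.toFinset.image (fun c => R z p c)).card := Finset.card_filter_le _ _
      _ ≤ W.roots.toFinset.card := Finset.card_image_le
      _ ≤ Multiset.card W.roots := Multiset.toFinset_card_le _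
      _ ≤ W.natDegree := card_roots' _
      _ ≤ 2 * N := by omega
  set f : ℂ → ℝ := fun u => ‖R z p u‖ with hf
  have hfm : Measurable f := by
    have h1 : Measurable (fun u : ℂ => (P z).eval u) := (P z).continuous.measurable
    have h2 : Measurable (fun u : ℂ => (P p).eval u) := (P p).continuous.measurable
    exact (h1.div h2).norm
  have hwin : s / 4 < 4 / t := by
    have h1 : s / 4 < 1 / t := by linarith
    have h2 : 1 / t ≤ 4 / t := by
      apply div_le_div_of_nonneg_right _ ht0.le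
      norm_num
    linarith
  have hs4 : 0 < s / 4 := by positivity
  have hC := hC2 hNU f hfm (fun u => norm_nonneg _) (s / 4) (4 / t) hs4 hwin J hJ0 (2 * N)
    (by omega) hJc
  set A1 : Set ℂ := {a : ℂ | s / 8 / r0 ≤ ‖a‖ ∧ ‖a‖ ≤ 8 / t / r0} with hA1
  set A1' : Set ℂ := {a : ℂ | s / 8 ≤ ‖a‖ ∧ ‖a‖ ≤ 8 / t} with hA1'
  set A2 : Set ℂ := ⋃ b ∈ J, {a : ℂ | s / 4 ≤ ‖a * b‖ ∧ ‖a * b‖ ≤ 4 / t ∧
        s / 4 ≤ ‖a‖ * f (a * b) ∧ ‖a‖ * f (a * b) ≤ 4 / t} with hA2
  have hsub : {a : ℂ | ¬ Pool.Agent.H762R2.Rt.Hyp (C a * P z) (P p)} ⊆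
      {0} ∪ A1 ∪ A1' ∪ A2 := by
    intro a ha
    by_contra hcon
    apply ha
    rw [Set.mem_union, Set.mem_union, Set.mem_union, not_or, not_or, not_or] at hcon
    obtain ⟨⟨⟨h0, h1⟩, h1'⟩, h2⟩ := hcon
    have ha0 : a ≠ 0 := h0
    refine hDYN N hN1 z p a s t ha0 hs0 ht0 hst hzp ?_ ?_ ?_
    · intro w hw
      obtain ⟨c1, c2, c3⟩ := hRw w hw
      refine ⟨c1, ?_⟩
      by_contra hoff
      unfold Off at hoff
      push Not at hoff
      obtain ⟨o1, o2⟩ := hoff
      rw [norm_mul] at o1 o2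
      apply h1
      refine ⟨?_, ?_⟩
      · rw [div_le_iff₀ hr0pos]
        have : ‖a‖ * ‖R z p w‖ ≤ ‖a‖ * (r0 * 2) := mul_le_mul_of_nonneg_left c3 (norm_nonneg _)
        linarith
      · rw [le_div_iff₀ hr0pos]
        have : ‖a‖ * (r0 * (1 / 2)) ≤ ‖a‖ * ‖R z p w‖ :=
          mul_le_mul_of_nonneg_left c2 (norm_nonneg _)
        have e : 8 / t = 2 * (4 / t) := by ring
        rw [e]
        linarith
    · intro x hx
      obtain ⟨c1, c2, c3⟩ := hRx x hx
      refine ⟨c1, ?_⟩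
      by_contra hoff
      unfold Off at hoff
      push Not at hoff
      obtain ⟨o1, o2⟩ := hoff
      rw [norm_mul] at o1 o2
      apply h1'
      refine ⟨?_, ?_⟩
      · have : ‖a‖ * ‖Pr z x / Pr p x‖ ≤ ‖a‖ * 2 := mul_le_mul_of_nonneg_left c3 (norm_nonneg _)
        linarith
      · have : ‖a‖ * (1 / 2) ≤ ‖a‖ * ‖Pr z x / Pr p x‖ :=
          mul_le_mul_of_nonneg_left c2 (norm_nonneg _)
        have e : 8 / t = 2 * (4 / t) := by ring
        rw [e]
        linarith
    · intro c hpc hzc hwc hoff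
      by_contra hcon2
      push Not at hcon2
      obtain ⟨_, hoff2⟩ := hcon2
      unfold Off at hoff hoff2
      push Not at hoff hoff2
      apply h2
      rw [hA2, Set.mem_iUnion₂]
      have hb0 : R z p c ≠ 0 := div_ne_zero hzc hpc
      refine ⟨R z p c, ?_, hoff.1, hoff.2, ?_, ?_⟩
      · rw [hJ, Finset.mem_filter, Finset.mem_image]
        refine ⟨⟨c, ?_, rfl⟩, hb0⟩
        rw [Multiset.mem_toFinset, mem_roots hw0]
        exact hwc
      · have := hoff2.1
        rw [norm_mul] at this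
        exact this
      · have := hoff2.2
        rw [norm_mul] at this
        exact this
  have hq1 : 8 / t / (s / 8) = 1024 * N ^ 2 * L := by
    rw [hs, ht]
    field_simp
    norm_num
  have hq2 : 4 / t / (s / 4) = 256 * N ^ 2 * L := by
    rw [hs, ht]
    field_simp
    norm_num
  have h88 : s / 8 ≤ 8 / t := by
    have h1 : 4 / t ≤ 8 / t := by
      apply div_le_div_of_nonneg_right _ ht0.le
      norm_num
    linarith
  have hm1' : nu A1' = ENNReal.ofReal (2 * Real.pi * Real.log (1024 * N ^ 2 * L)) := by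
    rw [hA1', hNU.1 (s / 8) (8 / t) (by positivity) h88, hq1]
  have hm1 : nu A1 = ENNReal.ofReal (2 * Real.pi * Real.log (1024 * N ^ 2 * L)) := by
    rw [hA1, hNU.1 (s / 8 / r0) (8 / t / r0) (by positivity)
      (div_le_div_of_nonneg_right h88 hr0pos.le), div_div_div_cancel_right₀ hr0pos.ne', hq1]
  rw [hq2] at hC
  have hlog1 : 0 ≤ Real.log (1024 * N ^ 2 * L) := by
    apply Real.log_nonneg
    nlinarith
  have hlog2 : 0 ≤ Real.log (256 * N ^ 2 * L) := by
    apply Real.log_nonneg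
    nlinarith
  have hpi := Real.pi_pos
  calc nu {a : ℂ | ¬ Pool.Agent.H762R2.Rt.Hyp (C a * P z) (P p)}
      ≤ nu ({0} ∪ A1 ∪ A1' ∪ A2) := measure_mono hsub
    _ ≤ nu ({0} ∪ A1 ∪ A1') + nu A2 := measure_union_le _ _
    _ ≤ nu ({0} ∪ A1) + nu A1' + nu A2 := by gcongr; exact measure_union_le _ _
    _ ≤ nu {0} + nu A1 + nu A1' + nu A2 := by gcongr; exact measure_union_le _ _
    _ ≤ 0 + ENNReal.ofReal (2 * Real.pi * Real.log (1024 * N ^ 2 * L)) +
        ENNReal.ofReal (2 * Real.pi * Real.log (1024 * N ^ 2 * L)) +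
        ENNReal.ofReal (4 * Real.sqrt 3 * Real.pi * Real.log (256 * N ^ 2 * L) *
          Real.sqrt (2 * N)) := by
        rw [hNU.2.2, hm1, hm1']
        refine add_le_add le_rfl ?_
        refine hC.trans (le_of_eq ?_)
        push_cast
        rfl
    _ ≤ ENNReal.ofReal (420 * Real.sqrt N * Real.log (N * L)) := by
        rw [zero_add, ← ENNReal.ofReal_add (by positivity) (by positivity),
          ← ENNReal.ofReal_add (by positivity) (by positivity)]
        apply ENNReal.ofReal_le_ofReal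
        have := numeric hN hL1
        linarith

end Pool.Agent.W721.RD
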